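import Pool.Agent.H22.Tn6

namespace Pool.Agent.Results.MP_36bee3_al.NotR0

/-- A Fischer class of finite soluble groups: closed under isomorphism, containing the trivial
group, closed under joins of subnormal members, and under subgroups nilpotent modulo their core. -/
def FischerClass (X : (G : Type) → [Group G] → Prop) : Prop :=
  (∀ (G : Type) [Group G], X G → Finite G ∧ Group.IsSolvable G) ∧
  (∀ (G H : Type) [Group G] [Group H], Nonempty (G ≃* H) → X G → X H) ∧ X Unit ∧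
  (∀ (G : Type) [Group G] [Finite G] (S : Set (Subgroup G)),
    (∀ K ∈ S, K.IsSubnormal ∧ X K) → sSup S = ⊤ → X G) ∧
  (∀ (H : Type) [Group H] (G : Subgroup H), X H →
    Group.IsNilpotent (G ⧸ G.normalCore.subgroupOf G) → X G)

theorem result : ∃ X : (G : Type) → [Group G] → Prop, FischerClass X ∧
    ∃ (G : Type) (_ : Group G) (_ : Finite G) (M₁ M₂ : Subgroup G) (_ : M₁.Normal) (_ : M₂.Normal),
      Group.IsSolvable G ∧ M₁ ⊓ M₂ = ⊥ ∧ X (G ⧸ M₁) ∧ X (G ⧸ M₂) ∧ ¬ X G := by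
  have f := H22.Tn.st_fit (n := 3) (by norm_num)
  have e := (Module.finBasisOfFinrankEq (ZMod 3) H22.Tn.F9
    (GaloisField.finrank 3 two_ne_zero)).equivFun
  let l : Fin 2 → H22.Tn.F9 →+ ZMod 3 := fun i =>
    ((LinearMap.proj i).comp e.toLinearMap).toAddMonoidHom
  have hl : ∀ i, Function.Surjective (l i) := fun i c => ⟨e.symm fun _ => c, by simp [l]⟩
  have k : ∀ i, H22.Tn.XN (H22.Tn.St 3) (_ ⧸ (H22.Tn.wmap (H22.Tn.pr (l i)) H22.Tn.C3).ker) :=
    fun i => (H22.Tn.xn_wr f (by simpa using H22.Tn.st_ts (hl i)) _).iso f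
      (QuotientGroup.quotientKerEquivOfSurjective _
        (H22.Tn.wmap_surj (H22.Tn.pr_surj (hl i)) _)).symm
  refine ⟨H22.Tn.XN (H22.Tn.St 3), ⟨fun _ _ h => ⟨h.1, h.solv f⟩, fun _ _ _ _ ⟨e⟩ h => h.iso f e,
    ⟨inferInstance, Unit, _, 1, inferInstance, f.triv⟩, fun _ _ _ S a b => H22.Tn.XN.n0 f S a b,
    fun _ _ G a b => a.fis f G b⟩, _, _, inferInstance, _, _, inferInstance, inferInstance,
    (H22.Tn.xn_wr (H22.Tn.st_fit (by norm_num)) H22.Tn.st9 _).solv (H22.Tn.st_fit (by norm_num)),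
    eq_bot_iff.2 fun w h => ?_, k 0, k 1, H22.Tn.not_xn⟩
  refine RegularWreathProduct.ext (funext fun q => Subtype.ext ?_)
    (congrArg RegularWreathProduct.right (MonoidHom.mem_ker.1 h.1) :)
  have a := congrArg (fun w => (w.left q).1) h.1
  have b := congrArg (fun w => (w.left q).1.c) h.2
  refine H22.Tn.Gm.ext (congrArg H22.Tn.Gm.s a :) (congrArg H22.Tn.Gm.a a :) (e.injective ?_)
    (congrArg H22.Tn.Gm.b a :) (congrArg H22.Tn.Gm.t a :)
  refine Eq.trans (funext fun i => ?_) (map_zero e).symm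
  fin_cases i
  exacts [congrArg H22.Tn.Gm.c a, b]

end Pool.Agent.Results.MP_36bee3_al.NotR0
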